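import Pool.Agent.H22.WT5
import Pool.Agent.H22.FptSim

open Pool.Agent.H38.NP Pool.Agent.H36.Par Pool.Agent.H22.WT

theorem Pool.Agent.Results.MP_9ce56d_lc.ParaNP.result :
    NPHardOn (PBound 24) Tardy := nph.npHardOn
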